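import Pool.Agent.MP_14ad9d_nt.R.Proj

set_option autoImplicit false

open NumberField MvPolynomial

namespace Pool.Agent.MP_14ad9d_nt.Full.R

open Pool.Agent.MP_14ad9d_nt.Sch

attribute [local instance] MvPolynomial.gradedAlgebra

theorem no_root (K : Type) [Field K] [NumberField K] : ∃ p : ℕ, 0 < p ∧ ∀ z : K, z ^ p ≠ 2 := by
  obtain ⟨p, h1, hp⟩ := Nat.exists_infinite_primes (Module.finrank ℚ K + 1)
  refine ⟨p, hp.pos, fun z hz => ?_⟩
  have h2 : ∀ b : ℚ, b ^ p ≠ 2 := fun b hb => by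
    have h3 := congrArg (padicValRat 2) hb
    have h4 : padicValRat 2 (2 : ℚ) = 1 := by simpa using padicValRat.self (p := 2) one_lt_two
    rw [padicValRat.pow, h4] at h3
    have h5 : (p : ℤ) ∣ 1 := ⟨_, h3.symm⟩
    exact hp.one_lt.ne' (Nat.dvd_one.1 (by exact_mod_cast h5))
  have h6 := minpoly.eq_of_irreducible_of_monic (X_pow_sub_C_irreducible_of_prime hp h2)
    (x := z) (by simp [hz]) (Polynomial.monic_X_pow_sub_C _ hp.ne_zero)
  have h7 := minpoly.natDegree_le (A := ℚ) z
  rw [← h6, Polynomial.natDegree_X_pow_sub_C] at h7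
  omega

theorem ev_rename {S σ τ : Type} [CommRing S] (v : τ → S) (e : σ → τ) (p : MvPolynomial σ ℤ) :
    ev v (rename e p) = ev (fun i => v (e i)) p := by
  rw [← aeval_eq_ev, ← aeval_eq_ev, aeval_rename]
  rfl

/-- an anisotropic form in any number of variables -/
theorem exists_form (K : Type) [Field K] [NumberField K] (n : ℕ) :
    ∃ (D : ℕ) (N : MvPolynomial (Fin n) ℤ), 1 < D ∧ N.IsHomogeneous D ∧
      ∀ y : Fin n → K, ev y N = 0 → ∀ i, y i = 0 := by
  obtain ⟨p, hp, hz⟩ := no_root K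
  induction n with
  | zero => exact ⟨2, 0, one_lt_two, isHomogeneous_zero _ _ _, fun _ _ i => i.elim0⟩
  | succ n ih =>
    obtain ⟨D, N, h1, h2, h3⟩ := ih
    refine ⟨D * p, X 0 ^ (D * p) - C 2 * rename Fin.succ N ^ p, by nlinarith, ?_, fun y hy => ?_⟩
    · refine IsHomogeneous.sub (isHomogeneous_X_pow _ _) ?_
      exact (h2.rename_isHomogeneous.pow p).C_mul 2
    · simp only [map_sub, map_mul, map_pow, eval₂Hom_X', eval₂Hom_C, ev_rename] at hy
      have h4 : ev (fun i => y i.succ) N = 0 := by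
        by_contra h
        refine hz (y 0 ^ D / ev (fun i => y i.succ) N) ?_
        rw [div_pow, div_eq_iff (pow_ne_zero _ h), ← pow_mul]
        simpa [sub_eq_zero] using hy
      rw [h4, zero_pow hp.ne', mul_zero, sub_zero] at hy
      exact Fin.cases (pow_eq_zero_iff (by positivity) |>.1 hy) (h3 _ h4)

theorem exists_homog {m : ℕ} (f : MvPolynomial (Fin m) ℤ) :
    ∃ (p : MvPolynomial (Fin (m + 1)) ℤ) (e : ℕ), ∀ (L : Type) [CommRing L] (c : L)
      (η : Fin m → L), ev (Fin.cons c fun i => c * η i : Fin (m + 1) → L) p = c ^ e * ev η f := by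
  induction f using MvPolynomial.induction_on with
  | C a => exact ⟨C a, 0, fun L _ c η => by simp⟩
  | add f g hf hg =>
    obtain ⟨p, e, hp⟩ := hf
    obtain ⟨q, e', hq⟩ := hg
    refine ⟨X 0 ^ e' * p + X 0 ^ e * q, e + e', fun L _ c η => ?_⟩
    simp only [map_add, map_mul, map_pow, hp, hq, eval₂Hom_X', Fin.cons_zero]
    ring
  | mul_X f i hf =>
    obtain ⟨p, e, hp⟩ := hf
    refine ⟨p * X i.succ, e + 1, fun L _ c η => ?_⟩
    simp only [map_mul, hp, eval₂Hom_X', Fin.cons_succ]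
    ring

theorem map_ev {A B τ : Type} [CommRing A] [CommRing B] (f : A →+* B) (v : τ → A)
    (P : MvPolynomial τ ℤ) : f (ev v P) = ev (fun i => f (v i)) P := by
  rw [← aeval_eq_ev, ← aeval_eq_ev, SchWAux.map_aeval_int]

/-- from an affine variety with no new rational points to a proper scheme -/
theorem schQ (K : Type) [Field K] [NumberField K] (m : ℕ) (𝓕 : Set (MvPolynomial (Fin m) ℤ))
    (hA : {η : Fin m → ℚ | ∀ f ∈ 𝓕, aeval η f = 0}.Infinite)
    (hB : ∀ η : Fin m → K, (∀ f ∈ 𝓕, aeval η f = 0) → ∀ l, η l ∈ Set.range (algebraMap ℚ K)) :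
    ConcP K := by
  obtain ⟨D, N, h1, h2, h3⟩ := exists_form K (m + 1)
  obtain ⟨d, rfl⟩ : ∃ d, D = d + 1 := ⟨D - 1, by omega⟩
  let G : RA (m + 1) := rename some N - X none * X (some 0) ^ d
  have hG : G ∈ gr (m + 1) (d + 1) := by
    refine IsHomogeneous.sub h2.rename_isHomogeneous ?_
    rw [add_comm d]
    exact (isHomogeneous_X _ _).mul (isHomogeneous_X_pow _ _)
  have evG : ∀ (L : Type) [CommRing L] (y : Option (Fin (m + 1)) → L),
      ev y G = ev (fun i => y (some i)) N - y none * y (some 0) ^ d := fun L _ y => by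
    simp only [G, map_sub, map_mul, map_pow, eval₂Hom_X', ev_rename]
  have sc : ∀ (L : Type) [CommRing L] (c : L) (η : Fin m → L),
      ev (Fin.cons c fun i => c * η i : Fin (m + 1) → L) N =
        c ^ (d + 1) * ev (Fin.cons 1 η : Fin (m + 1) → L) N := fun L _ c η => by
    rw [← eval_homog h2]
    congr 2
    funext i
    refine Fin.cases ?_ (fun i => ?_) i <;> simp
  have mp : ∀ η : Fin m → ℚ, algebraMap ℚ K (ev (Fin.cons 1 η : Fin (m + 1) → ℚ) N) =
      ev (Fin.cons 1 fun i => algebraMap ℚ K (η i) : Fin (m + 1) → K) N := fun η => by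
    rw [map_ev]
    congr 2
    funext i
    refine Fin.cases ?_ (fun i => ?_) i <;> simp
  have n0 : ∀ η : Fin m → ℚ, ev (Fin.cons 1 η : Fin (m + 1) → ℚ) N ≠ 0 := fun η h => by
    have := h3 _ ((mp η).symm.trans (by rw [h, map_zero])) 0
    simp at this
  refine schP (m + 1) K {p | ∃ f ∈ 𝓕, ∃ e : ℕ, ∀ (L : Type) [CommRing L] (c : L)
      (η : Fin m → L), ev (Fin.cons c fun i => c * η i : Fin (m + 1) → L) p = c ^ e * ev η f}
    hG d.succ_pos ?_ (fun w hw hw' => ?_) fun y y0 hy o => ?_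
  · refine Set.Infinite.of_image (fun (w : Fin (m + 1) → ℚ) (i : Fin m) => w i.succ / w 0)
      (hA.mono fun η hη => ?_)
    set c := (ev (Fin.cons 1 η : Fin (m + 1) → ℚ) N)⁻¹ with hc
    have c0 : c ≠ 0 := inv_ne_zero (n0 η)
    refine ⟨Fin.cons c fun i => c * η i, ⟨?_, ?_⟩, ?_⟩
    · rintro p ⟨f, hf, e, hp⟩
      rw [aeval_eq_ev, hp, ← aeval_eq_ev, hη f hf, mul_zero]
    · rw [evG]
      simp only [Option.elim, Fin.cons_zero, one_mul]
      rw [sc, pow_succ, mul_assoc, hc, inv_mul_cancel₀ (n0 η), mul_one, sub_self]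
    · funext i
      simp [c0]
  · rw [evG] at hw'
    simp only [Option.elim, one_mul] at hw'
    by_cases w0 : w 0 = 0
    · rw [w0, zero_pow (by omega), sub_zero] at hw'
      exact fun l => ⟨0, by rw [map_zero, h3 w hw' l]⟩
    · have ew : w = Fin.cons (w 0) fun i => w 0 * (w i.succ / w 0) := by
        funext i
        refine Fin.cases rfl (fun i => ?_) i
        simp [mul_div_cancel₀ _ w0]
      choose η hη using hB (fun i => w i.succ / w 0) fun f hf => by
        obtain ⟨p, e, hp⟩ := exists_homog f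
        have := hw p ⟨f, hf, e, hp⟩
        rw [ew, aeval_eq_ev, hp] at this
        rw [aeval_eq_ev]
        exact (mul_eq_zero.1 this).resolve_left (pow_ne_zero _ w0)
      have h4 : w 0 * algebraMap ℚ K (ev (Fin.cons 1 η : Fin (m + 1) → ℚ) N) = 1 := by
        rw [mp, funext hη]
        have := sc K (w 0) fun i => w i.succ / w 0
        rw [← ew, sub_eq_zero.1 hw', pow_succ, mul_assoc] at this
        exact (mul_left_cancel₀ (pow_ne_zero d w0) ((mul_one _).trans this)).symm
      have h5 : algebraMap ℚ K (ev (Fin.cons 1 η : Fin (m + 1) → ℚ) N)⁻¹ = w 0 := by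
        rw [map_inv₀]
        exact (eq_inv_of_mul_eq_one_left h4).symm
      refine Fin.cases ⟨_, h5⟩ fun i => ⟨(ev (Fin.cons 1 η : Fin (m + 1) → ℚ) N)⁻¹ * η i, ?_⟩
      rw [map_mul, h5, hη, mul_div_cancel₀ _ w0]
  · rw [evG, y0, zero_mul, sub_zero] at hy
    cases o with
    | none => exact y0
    | some i => exact h3 _ hy i

theorem schT (K : Type) [Field K] [NumberField K] (τ : Type) [Fintype τ]
    (𝓕 : Set (MvPolynomial τ ℤ)) (hA : {η : τ → ℚ | ∀ f ∈ 𝓕, aeval η f = 0}.Infinite)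
    (hB : ∀ η : τ → K, (∀ f ∈ 𝓕, aeval η f = 0) → ∀ i, η i ∈ Set.range (algebraMap ℚ K)) :
    ConcP K := by
  let e := Fintype.equivFin τ
  refine schQ K (Fintype.card τ) (rename e '' 𝓕) ?_ ?_
  · refine Set.Infinite.of_image (fun η => η ∘ e) (hA.mono ?_)
    rintro η h1
    refine ⟨η ∘ e.symm, ?_, ?_⟩
    · rintro _ ⟨f, hf, rfl⟩
      rw [aeval_rename]
      have : (η ∘ e.symm) ∘ e = η := by ext i; simp
      rw [this]
      exact h1 f hf
    · ext i; simp
  · intro η h1 i
    have := hB (η ∘ e) (fun f hf => by rw [← aeval_rename]; exact h1 _ ⟨f, hf, rfl⟩) (e.symm i)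
    simpa using this

open SchWAux in
/-- restriction of scalars -/
theorem schW (K₀ F K : Type) [Field K₀] [NumberField K₀] [Field F]
    [NumberField F] [Field K] [NumberField K] [Algebra F K] (f : K₀ →+* K)
    (hli : ∀ (n : ℕ) (b : Fin n → F), LinearIndependent ℚ b → ∀ c : Fin n → K₀,
      ∑ i, f (c i) * algebraMap F K (b i) = 0 → ∀ i, c i = 0)
    (σ : Type) [Fintype σ] (𝓖 : Set (MvPolynomial σ F))
    (hA : {η : σ → F | ∀ q ∈ 𝓖, aeval η q = 0}.Infinite)
    (hB : ∀ η : σ → K, (∀ q ∈ 𝓖, aeval η q = 0) → ∀ i, η i ∈ Set.range (algebraMap F K)) :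
    ConcP K₀ := by
  classical
  let b := Module.finBasis ℚ F
  set n := Module.finrank ℚ F
  have hsum : ∀ x : F, ∑ j, ((b.repr x j : ℚ) : F) * b j = x := by
    intro x
    conv_rhs => rw [← b.sum_repr x]
    refine Finset.sum_congr rfl fun j _ => ?_
    rw [Algebra.smul_def, eq_ratCast]
  let 𝓕 : Set (MvPolynomial (σ × Fin n) ℤ) := {p | ∃ q ∈ 𝓖, ∃ d : ℤ, d ≠ 0 ∧
    ∃ P : Fin n → MvPolynomial (σ × Fin n) ℤ,
      C (d : F) * subst b q = ∑ j, C (b j) * map (Int.castRingHom F) (P j) ∧ ∃ j, p = P j}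
  refine schT K₀ (σ × Fin n) 𝓕 ?_ ?_
  · refine Set.Infinite.of_image (fun c : σ × Fin n → ℚ => fun i => ∑ j, (c (i, j) : F) * b j)
      (hA.mono ?_)
    rintro η h1
    refine ⟨fun k => b.repr (η k.1) k.2, ?_, ?_⟩
    · rintro _ ⟨q, hq, d, hd, P, hP, j, rfl⟩
      have h3 := eval_decomp (L := F) b q d P hP fun k => ((b.repr (η k.1) k.2 : ℚ) : F)
      simp only [Algebra.algebraMap_self, RingHom.id_apply, hsum] at h3
      rw [h1 q hq, mul_zero] at h3
      have h4 : ∑ j, (aeval (fun k : σ × Fin n => b.repr (η k.1) k.2) (P j)) • b j = 0 := by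
        rw [h3]
        refine Finset.sum_congr rfl fun j _ => ?_
        rw [Algebra.smul_def, map_aeval_int (algebraMap ℚ F)]
        simp only [eq_ratCast]
      exact Fintype.linearIndependent_iff.mp b.linearIndependent _ h4 j
    · ext i
      exact hsum (η i)
  · intro c h1 k
    let η : σ → K := fun i => ∑ j, f (c (i, j)) * algebraMap F K (b j)
    have hη1 : ∀ q ∈ 𝓖, aeval η q = 0 := by
      intro q hq
      obtain ⟨d, hd, P, hP⟩ := exists_decomp b (subst b q)
      have h3 := eval_decomp (L := K) b q d P hP fun k => f (c k)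
      have h4 : ∀ j, aeval (fun k => f (c k)) (P j) = 0 := by
        intro j
        rw [← map_aeval_int, h1 (P j) ⟨q, hq, d, hd, P, hP, j, rfl⟩, map_zero]
      simp only [h4, zero_mul, Finset.sum_const_zero] at h3
      have hd' : (d : K) ≠ 0 := by exact_mod_cast hd
      exact (mul_eq_zero.mp h3).resolve_left hd'
    obtain ⟨x, hx⟩ := hB η hη1 k.1
    have h5 := hli n b b.linearIndependent
      (fun j => c (k.1, j) - ((b.repr x j : ℚ) : K₀)) (by
        simp only [map_sub, sub_mul, Finset.sum_sub_distrib, map_ratCast]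
        rw [sub_eq_zero]
        change η k.1 = _
        rw [← hx]
        conv_lhs => rw [← hsum x]
        simp only [map_sum, map_mul, map_ratCast]) k.2
    exact ⟨b.repr x k.2, by rw [eq_ratCast]; exact (sub_eq_zero.mp h5).symm⟩

end Pool.Agent.MP_14ad9d_nt.Full.R
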