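import Pool.Agent.MP_14ad9d_nt.R.Inv
import Pool.Agent.Mg.F14ad9d.G0b7593

set_option autoImplicit false

open NumberField Polynomial

namespace Pool.Agent.MP_14ad9d_nt.Full.R

open SchMAux

/-- the variety of Mumford coordinates of a fixed degree -/
theorem schM (K₀ F K : Type) [Field K₀] [NumberField K₀] [Field F]
    [NumberField F] [Field K] [NumberField K] [Algebra F K] (f : K₀ →+* K)
    (hli : ∀ (n : ℕ) (b : Fin n → F), LinearIndependent ℚ b → ∀ c : Fin n → K₀,
      ∑ i, f (c i) * algebraMap F K (b i) = 0 → ∀ i, c i = 0) (d : ℕ) (Φ : F[X])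
    (hA : {p : F[X] × F[X] | p.1.Monic ∧ p.1.natDegree = d ∧
      p.2.degree < p.1.degree ∧ p.1 ∣ p.2 ^ 2 - Φ}.Infinite)
    (hB : ∀ u v : K[X], u.Monic → u.natDegree = d → v.degree < u.degree →
      u ∣ v ^ 2 - Φ.map (algebraMap F K) →
      (∃ u' : F[X], u'.map (algebraMap F K) = u) ∧ ∃ v' : F[X], v'.map (algebraMap F K) = v) :
    ConcP K₀ := by
  refine schW K₀ F K f hli (Ix d (Φ.natDegree + 2 * d + 1))
    (Set.range fun i => (eqn 1 ((X ^ d : F[X]).map MvPolynomial.C) ((0 : F[X]).map MvPolynomial.C)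
      (Φ.map MvPolynomial.C) MvPolynomial.X).coeff i) ?_ ?_
  · refine Set.Infinite.of_image (fun η => (X ^ d + pl fun i => η (.inl i),
      pl fun i => η (.inr (.inl i)))) (hA.mono ?_)
    rintro ⟨u, v⟩ ⟨hu, hg, hvu, ⟨h, e⟩⟩
    dsimp only at hu hg hvu e
    have hd : u.degree = d := by rw [degree_eq_natDegree hu.ne_zero, hg]
    have d₁ : (u - X ^ d : F[X]).degree < (d : WithBot ℕ) := by
      rw [← hd]
      exact degree_sub_lt_left (hd.trans (degree_X_pow d).symm) hu.ne_zero
        (by rw [hu.leadingCoeff, leadingCoeff_X_pow])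
    have d₂ : v.degree < d := hvu.trans_eq hd
    have d₃ : h.degree < (Φ.natDegree + 2 * d + 1 : ℕ) := by
      have a₁ : v.natDegree ≤ d := natDegree_le_of_degree_le d₂.le
      have a₂ : (v ^ 2).natDegree ≤ 2 * v.natDegree := natDegree_pow_le
      have a₃ := natDegree_sub_le (v ^ 2) Φ
      have a₄ : h.natDegree ≤ (u * h).natDegree := by
        rcases eq_or_ne h 0 with rfl | h0
        · simp
        · rw [hu.natDegree_mul' h0]
          omega
      rw [← e] at a₄
      refine degree_le_natDegree.trans_lt ?_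
      have : h.natDegree < Φ.natDegree + 2 * d + 1 := by omega
      exact_mod_cast this
    have e₁ : X ^ d + (pl fun i : Fin d => (u - X ^ d).coeff i) = u := by
      rw [pl_eq d₁]
      ring
    refine ⟨Sum.elim (fun i => (u - X ^ d).coeff i) (Sum.elim (fun i => v.coeff i)
      fun i => h.coeff i), ?_, ?_⟩
    · rw [Set.mem_ofPred_eq, eqn_iff]
      simp only [eqn, Algebra.algebraMap_self, Polynomial.map_id, Sum.elim_inl, Sum.elim_inr,
        Nat.cast_one, C_1, one_mul, zero_add]
      rw [e₁, pl_eq d₂, pl_eq d₃, e, sub_self]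
    · simp only [Sum.elim_inl, Sum.elim_inr]
      rw [e₁, pl_eq d₂]
  · intro η he
    rw [eqn_iff, eqn, sub_eq_zero] at he
    simp only [Nat.cast_one, C_1, one_mul, Polynomial.map_zero, zero_add, Polynomial.map_pow,
      map_X] at he
    set a : K[X] := pl fun i => η (.inl i) with ha
    set b : K[X] := pl fun i => η (.inr (.inl i)) with hb
    have da : a.degree < d := pl_degree _
    have db : b.degree < d := pl_degree _
    have hu : (X ^ d + a).Monic := monic_X_pow_add da
    have du : (X ^ d + a : K[X]).degree = (d : WithBot ℕ) := by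
      rw [degree_add_eq_left_of_degree_lt (da.trans_eq (degree_X_pow d).symm), degree_X_pow]
    obtain ⟨⟨u', hu'⟩, v', hv'⟩ := hB _ _ hu (natDegree_eq_of_degree_eq_some du)
      (db.trans_eq du.symm) ⟨_, he.symm⟩
    rintro (i | i | i)
    · rw [← pl_coeff (fun i => η (.inl i)) i]
      refine ⟨(u' - X ^ d).coeff i, ?_⟩
      rw [← coeff_map, Polynomial.map_sub, hu', Polynomial.map_pow, map_X, add_sub_cancel_left]
    · rw [← pl_coeff (fun i => η (.inr (.inl i))) i]
      exact ⟨v'.coeff i, by rw [← coeff_map, hv']⟩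
    · rw [← pl_coeff (fun i => η (.inr (.inr i))) i]
      refine quot_mem (algebraMap F K).range hu he (fun i => ?_) (fun i => ?_) (fun i => ?_) i
      · rw [← hu', coeff_map]
        exact ⟨_, rfl⟩
      · rw [← hv', coeff_map]
        exact ⟨_, rfl⟩
      · rw [coeff_map]
        exact ⟨_, rfl⟩

end Pool.Agent.MP_14ad9d_nt.Full.R
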