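import Pool.Agent.Mg.F14ad9d.G10c727

set_option autoImplicit false

open NumberField AlgebraicGeometry CategoryTheory TopologicalSpace MvPolynomial

namespace Pool.Agent.MP_14ad9d_nt.Full.R

open Pool.Agent.MP_14ad9d_nt.Sch

attribute [local instance] MvPolynomial.gradedAlgebra

/-- the conclusion with a proper scheme -/
def ConcP (K : Type) [Field K] [NumberField K] : Prop :=
  ∃ (X : Scheme.{0}) (f : X ⟶ Spec (CommRingCat.of ℤ)), IsProper f ∧
    Infinite (Spec (CommRingCat.of ℤ) ⟶ X) ∧
    Function.Bijective (fun g : Spec (CommRingCat.of ℤ) ⟶ X =>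
      Spec.map (CommRingCat.ofHom (algebraMap ℤ (𝓞 K))) ≫ g) ∧
    Function.Bijective (fun g : Spec (CommRingCat.of ℤ) ⟶ X =>
      Spec.map (CommRingCat.ofHom (algebraMap ℤ K)) ≫ g)

/-- a closed subset carries a closed subscheme through which reduced schemes factor -/
theorem exists_closed (P : Scheme.{0}) (Z : Closeds P) :
    ∃ (X : Scheme.{0}) (κ : X ⟶ P), IsClosedImmersion κ ∧ (∀ x, κ x ∈ Z) ∧
      ∀ (T : Scheme.{0}) [IsReduced T] (g : T ⟶ P), (∀ t, g t ∈ Z) →
        ∃ g' : T ⟶ X, g' ≫ κ = g := by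
  let I := Scheme.IdealSheafData.vanishingIdeal Z
  let ι := I.subschemeι
  have hι : Set.range ι = Z := by
    rw [Scheme.IdealSheafData.range_subschemeι,
      Scheme.IdealSheafData.coe_support_vanishingIdeal]
  refine ⟨I.subscheme, ι, inferInstance, ?_, ?_⟩
  · intro x
    rw [← SetLike.mem_coe, ← hι]
    exact ⟨_, rfl⟩
  · intro T _ g hg
    have H : ι.ker ≤ g.ker := by
      rw [Scheme.IdealSheafData.ker_subschemeι, ← Scheme.IdealSheafData.map_bot,
        ← Scheme.nilradical_eq_bot, ← Scheme.IdealSheafData.vanishingIdeal_top,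
        Scheme.IdealSheafData.map_vanishingIdeal]
      apply Scheme.IdealSheafData.vanishingIdeal_antimono
      rw [Closeds.closure_le]
      rintro _ ⟨t, -, rfl⟩
      exact hg t
    exact ⟨IsClosedImmersion.lift ι g H, IsClosedImmersion.lift_fac _ _ _⟩

variable (m : ℕ)

/-- the coordinate ring of a chart -/
abbrev RC (o : Option (Fin m)) : Type := HomogeneousLocalization.Away (gr m) (X o)

/-- a chart -/
noncomputable abbrev jc (o : Option (Fin m)) : Spec (CommRingCat.of (RC m o)) ⟶ PP m :=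
  Proj.awayι (gr m) (X o) (hX m o) Nat.one_pos

/-- the coordinates in a chart -/
noncomputable def yc (o o' : Option (Fin m)) : RC m o :=
  HomogeneousLocalization.Away.mk (gr m) (hX m o) 1 (X o') (by simpa using hX m o')

theorem yc_self (o : Option (Fin m)) : yc m o o = 1 := by
  apply HomogeneousLocalization.val_injective
  rw [yc, HomogeneousLocalization.Away.val_mk, HomogeneousLocalization.val_one,
    ← Localization.mk_one, Localization.mk_eq_mk_iff, Localization.r_iff_exists]
  exact ⟨1, by simp⟩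

theorem yc_none (l : Fin m) : yc m none (some l) = yy m l := rfl

theorem ev_yc (o : Option (Fin m)) {G : RA m} {D : ℕ} (hG : G ∈ gr m D) :
    ev (yc m o) G = HomogeneousLocalization.Away.isLocalizationElem (hX m o) hG := by
  have hG' : G.IsHomogeneous D := hG
  apply HomogeneousLocalization.val_injective
  let L := Localization.Away (X o : RA m)
  let c : L := Localization.mk 1 ⟨X o, Submonoid.mem_powers _⟩
  let F : RC m o →+* L := algebraMap (RC m o) L
  have h1 : F.comp (ev (yc m o)) = ev (fun o' => c * algebraMap (RA m) L (X o')) := by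
    apply ev_ext
    intro o'
    simp only [RingHom.comp_apply, eval₂Hom_X', c]
    change (yc m o o').val = _
    rw [yc, HomogeneousLocalization.Away.val_mk,
      ← Localization.mk_one_eq_algebraMap, Localization.mk_mul,
      Localization.mk_eq_mk_iff, Localization.r_iff_exists]
    exact ⟨1, by simp⟩
  have h2 : ev (fun o' => algebraMap (RA m) L (X o')) = algebraMap (RA m) L := by
    apply ev_ext
    intro o
    simp
  have h3 := congr($h1 G)
  rw [eval_homog hG', h2] at h3
  change (F.comp (ev (yc m o))) G = _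
  rw [h3, HomogeneousLocalization.Away.val_mk,
    ← Localization.mk_one_eq_algebraMap, Localization.mk_pow, Localization.mk_mul,
    Localization.mk_eq_mk_iff, Localization.r_iff_exists]
  exact ⟨1, by simp⟩

/-- a field-valued point of a chart lies off a hypersurface iff the form does not vanish -/
theorem mem_basic (o : Option (Fin m)) {G : RA m} {D : ℕ} (hG : G ∈ gr m D) (hD : 0 < D)
    {S : Type} [Field S] (φ : RC m o →+* S) (x : Spec (CommRingCat.of S)) :
    jc m o (Spec.map (CommRingCat.ofHom φ) x) ∈ Proj.basicOpen (gr m) G ↔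
      ev (fun o' => φ (yc m o o')) G ≠ 0 := by
  have e : φ.comp (ev (yc m o)) = ev fun o' => φ (yc m o o') := by
    apply ev_ext
    intro l
    simp
  have e' : φ (ev (yc m o) G) = ev (fun o' => φ (yc m o o')) G := congr($e G)
  change Spec.map (CommRingCat.ofHom φ) x ∈ jc m o ⁻¹ᵁ Proj.basicOpen (gr m) G ↔ _
  rw [Proj.awayι_preimage_basicOpen _ _ _ hG hD, ← ev_yc, ← e']
  change φ (ev (yc m o) G) ∉ x.asIdeal ↔ _
  rw [Ideal.eq_bot_of_prime x.asIdeal, Ideal.mem_bot]

theorem lift_chart (o : Option (Fin m)) {S : Type} [Field S]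
    (g : Spec (CommRingCat.of S) ⟶ PP m) (x : Spec (CommRingCat.of S))
    (h : g x ∈ Proj.basicOpen (gr m) (X o)) :
    ∃ φ : RC m o →+* S, g = Spec.map (CommRingCat.ofHom φ) ≫ jc m o := by
  have H : Set.range g ⊆ Set.range (jc m o) := by
    rintro _ ⟨y, rfl⟩
    obtain rfl : y = x := Subsingleton.elim (α := PrimeSpectrum S) y x
    rw [← Proj.opensRange_awayι (gr m) (X o) (hX m o) Nat.one_pos] at h
    exact h
  obtain ⟨φ, hφ⟩ := Spec.map_surjective (IsOpenImmersion.lift _ _ H)
  exact ⟨φ.hom, by rw [CommRingCat.ofHom_hom, hφ, IsOpenImmersion.lift_fac]⟩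

theorem exists_chart (x : PP m) : ∃ o, x ∈ Proj.basicOpen (gr m) (X o) := by
  have h : Algebra.adjoin (gr m 0) (Set.range (X : Option (Fin m) → RA m)) = ⊤ := by
    rw [eq_top_iff]
    intro p hp
    clear hp
    induction p using MvPolynomial.induction_on with
    | C a =>
      have : (C a : RA m) = a • 1 := by simp
      rw [this]
      exact zsmul_mem (one_mem _) a
    | add p q hp hq => exact add_mem hp hq
    | mul_X p i hp => exact mul_mem hp (Algebra.subset_adjoin ⟨i, rfl⟩)
  have := Proj.iSup_basicOpen_eq_top' (gr m) X (fun o => ⟨1, hX m o⟩) h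
  exact Opens.mem_iSup.1 (this.ge (Set.mem_univ x))

theorem exists_prime (η : Fin m → ℚ) : ∃ p : ℕ, p.Prime ∧ ∀ i, LInt p (η i) := by
  obtain ⟨p, h1, hp⟩ := Nat.exists_infinite_primes (∑ i, (η i).den + 1)
  refine ⟨p, hp, fun i => ⟨(η i).den, ?_, ?_⟩⟩
  · have := Finset.single_le_sum (f := fun i => (η i).den) (fun _ _ => Nat.zero_le _)
      (Finset.mem_univ i)
    exact (Nat.coprime_of_lt_prime (η i).den_nz (by omega) hp).symm
  · rw [Rat.den_mul_eq_num]
    exact isIntegral_algebraMap

/-- from an affine system and a form without zeros at infinity to a proper scheme -/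
theorem schP (K : Type) [Field K] [NumberField K] (𝓕 : Set (MvPolynomial (Fin m) ℤ))
    {G : RA m} {D : ℕ} (hG : G ∈ gr m D) (hD : 0 < D)
    (hA : {η : Fin m → ℚ | (∀ f ∈ 𝓕, aeval η f = 0) ∧
      ev (fun o : Option (Fin m) => o.elim 1 η) G = 0}.Infinite)
    (hB : ∀ η : Fin m → K, (∀ f ∈ 𝓕, aeval η f = 0) →
      ev (fun o : Option (Fin m) => o.elim 1 η) G = 0 → ∀ l, η l ∈ Set.range (algebraMap ℚ K))
    (hC : ∀ y : Option (Fin m) → K, y none = 0 → ev y G = 0 → ∀ o, y o = 0) : ConcP K := by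
  let W : Closeds (PP m) :=
    ⟨(Proj.basicOpen (gr m) G : Set (PP m))ᶜ, (Proj.basicOpen (gr m) G).isOpen.isClosed_compl⟩
  obtain ⟨Y, κ, hcl, hκ, hlift⟩ := exists_closed (PP m) (ZZ m 𝓕 ⊓ W)
  have el : ∀ {S : Type} [Field S] (φ : RB m →+* S),
      (fun o' => φ (yc m none o')) = fun o : Option (Fin m) => o.elim 1 fun l => φ (yy m l) := by
    intro S _ φ
    funext o
    cases o with
    | none => simp [yc_self]
    | some l => rfl
  have hsec : ∀ η : Fin m → ℚ, (∀ f ∈ 𝓕, aeval η f = 0) →
      ev (fun o : Option (Fin m) => o.elim 1 η) G = 0 →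
      ∃ t : Spec (CommRingCat.of ℤ) ⟶ Y, ∀ (S : Type) [Field S] [CharZero S],
        ∃ φ : RB m →+* S, (∀ l, φ (yy m l) = (η l : S)) ∧
        Spec.map (CommRingCat.ofHom (algebraMap ℤ S)) ≫ t ≫ κ =
          Spec.map (CommRingCat.ofHom φ) ≫ jj m := by
    intro η h1 h2
    obtain ⟨p, hp, h3⟩ := exists_prime m η
    obtain ⟨s, hs1, hs2⟩ := SchWAux.exists_sectionL p m 𝓕 hp η h1 h3
    have hW : ∀ x, s x ∈ W := by
      intro x
      obtain ⟨φ, hφ, h⟩ := hs2 ℚ
      have hd := dom (algebraMap ℤ ℚ) (algebraMap ℤ ℚ).injective_int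
      have hc : IsClosed (s ⁻¹' (W : Set (PP m))) := W.isClosed.preimage s.continuous
      have hsub : Set.range (Spec.map (CommRingCat.ofHom (algebraMap ℤ ℚ))) ⊆
          s ⁻¹' (W : Set (PP m)) := by
        rintro _ ⟨y, rfl⟩
        rw [Set.mem_preimage, ← Scheme.Hom.comp_apply, h, Scheme.Hom.comp_apply]
        intro hy
        refine (mem_basic m none hG hD φ y).1 hy ?_
        rw [el, funext hφ]
        simpa using h2
      have := closure_minimal hsub hc
      rw [hd.denseRange.closure_range] at this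
      exact this (Set.mem_univ x)
    obtain ⟨t, ht⟩ := hlift _ s fun x => ⟨(hs1 x).1, hW x⟩
    exact ⟨t, by rw [ht]; exact hs2⟩
  have hpr : IsProper (pp m) := by
    have := IsClosedImmersion.spec_of_surjective (CommRingCat.ofHom (algebraMap ℤ (gr m 0)))
      (alg_surj m)
    unfold pp
    infer_instance
  have inj : ∀ (R : Type) [CommRing R] [CharZero R], Function.Injective
      (fun g : Spec (CommRingCat.of ℤ) ⟶ Y =>
        Spec.map (CommRingCat.ofHom (algebraMap ℤ R)) ≫ g) := by
    intro R _ _ g g' h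
    have := dom (algebraMap ℤ R) (algebraMap ℤ R).injective_int
    rw [← cancel_mono κ]
    apply ext_of_isDominant (Spec.map (CommRingCat.ofHom (algebraMap ℤ R)))
    simp only at h
    rw [reassoc_of% h]
  have surj : ∀ g : Spec (CommRingCat.of K) ⟶ Y, ∃ t : Spec (CommRingCat.of ℤ) ⟶ Y,
      Spec.map (CommRingCat.ofHom (algebraMap ℤ K)) ≫ t = g := by
    intro g
    let x : Spec (CommRingCat.of K) := (⊥ : PrimeSpectrum K)
    have hx : (g ≫ κ) x ∈ ZZ m 𝓕 ⊓ W := by
      rw [Scheme.Hom.comp_apply]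
      exact hκ _
    have h0 : (g ≫ κ) x ∈ Proj.basicOpen (gr m) (X none) := by
      by_contra hn
      obtain ⟨o, ho⟩ := exists_chart m ((g ≫ κ) x)
      obtain ⟨φ, hφ⟩ := lift_chart m o _ x ho
      rw [hφ, Scheme.Hom.comp_apply] at hn hx
      have h1 := not_not.1 ((mem_basic m o (hX m none) Nat.one_pos φ x).not.1 hn)
      have h2 := not_not.1 ((mem_basic m o hG hD φ x).not.1 hx.2)
      have h3 := hC _ (by simpa using h1) h2 o
      rw [yc_self, map_one] at h3
      exact one_ne_zero h3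
    obtain ⟨φ, hφ⟩ := lift_chart m none _ x h0
    rw [hφ, Scheme.Hom.comp_apply] at hx
    have hz : ∀ f ∈ 𝓕, aeval (fun l => φ (yy m l)) f = 0 := by
      intro f hf
      have h2 : φ (ev (yy m) f) ∈ (⊥ : Ideal K) := (mem_ZZ m 𝓕 _).mp hx.1 f hf
      rw [aeval_eq_ev, ← hom_ev]
      exact h2
    have hz' := not_not.1 ((mem_basic m none hG hD φ x).not.1 hx.2)
    rw [el] at hz'
    choose η hη using hB _ hz hz'
    have hη1 : ∀ f ∈ 𝓕, aeval η f = 0 := by
      intro f hf
      apply (algebraMap ℚ K).injective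
      rw [map_zero, SchWAux.map_aeval_int, funext hη]
      exact hz f hf
    have hη2 : ev (fun o : Option (Fin m) => o.elim 1 η) G = 0 := by
      apply (algebraMap ℚ K).injective
      rw [map_zero, ← aeval_eq_ev, SchWAux.map_aeval_int, aeval_eq_ev, ← hz']
      congr 2
      funext o
      cases o with
      | none => simp
      | some l => exact hη l
    obtain ⟨t, ht⟩ := hsec η hη1 hη2
    obtain ⟨φ', hφ', h⟩ := ht K
    have hφφ : φ' = φ := hom_ext m fun l => by rw [hφ', ← hη]; simp
    refine ⟨t, ?_⟩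
    rw [← cancel_mono κ, Category.assoc, h, hφφ, hφ]
  refine ⟨Y, κ ≫ pp m, inferInstance, ?_, ⟨inj _, fun g => ?_⟩, inj _, surj⟩
  · choose t ht using hsec
    have := hA.to_subtype
    refine Infinite.of_injective (fun η : {η : Fin m → ℚ | (∀ f ∈ 𝓕, aeval η f = 0) ∧
      ev (fun o : Option (Fin m) => o.elim 1 η) G = 0} => t η.1 η.2.1 η.2.2) ?_
    intro η η' h
    obtain ⟨φ, hφ, h1⟩ := ht η.1 η.2.1 η.2.2 ℚ
    obtain ⟨φ', hφ', h2⟩ := ht η'.1 η'.2.1 η'.2.2 ℚ
    simp only at h
    rw [h, h2, cancel_mono] at h1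
    have h3 : φ' = φ := congrArg CommRingCat.Hom.hom (Spec.map_injective h1)
    ext l
    have h4 := hφ l
    rw [← h3, hφ'] at h4
    simpa using h4.symm
  · obtain ⟨t, ht⟩ := surj (Spec.map (CommRingCat.ofHom (algebraMap (𝓞 K) K)) ≫ g)
    refine ⟨t, ?_⟩
    have := dom (algebraMap (𝓞 K) K) (RingOfIntegers.coe_injective)
    rw [← cancel_mono κ]
    apply ext_of_isDominant (Spec.map (CommRingCat.ofHom (algebraMap (𝓞 K) K)))
    simp only [← Category.assoc]
    rw [← ht, ← Spec.map_comp, ← CommRingCat.ofHom_comp,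
      RingHom.ext_int ((algebraMap (𝓞 K) K).comp (algebraMap ℤ (𝓞 K))) (algebraMap ℤ K)]

end Pool.Agent.MP_14ad9d_nt.Full.R
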