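import Pool.Agent.Mg.F14ad9d.G34232b

set_option autoImplicit false

open NumberField Polynomial Filter Topology

namespace Pool.Agent.MP_14ad9d_nt.Full.R

section Scale

variable {l : ℕ} {k : Type} [Field k] {s t : kˣ} {μ ε : k}

theorem FF_comp (h1 : μ ^ l = ε ^ 2) (h2 : (s : k) = ε * t) :
    (FF l s).comp (C μ * X) = C ε ^ 2 * FF l t := by
  rw [FF, FF, add_comp, C_comp, X_pow_comp, mul_pow, ← C_pow, h1, h2, mul_pow, C_mul, C_pow]
  ring

/-- the scaling map of coordinate rings -/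
noncomputable def scl (h1 : μ ^ l = ε ^ 2) (h2 : (s : k) = ε * t) : CR l s →+* CR l t where
  toFun z := ⟨z.re.comp (C μ * X), C ε * z.im.comp (C μ * X)⟩
  map_one' := by ext1 <;> simp [QuadraticAlgebra.re_one, QuadraticAlgebra.im_one]
  map_mul' x y := by
    ext1
    · simp only [QuadraticAlgebra.re_mul, add_comp, mul_comp, FF_comp h1 h2]
      ring
    · simp only [QuadraticAlgebra.im_mul, add_comp, mul_comp, zero_mul, add_zero]
      ring
  map_zero' := by ext1 <;> simp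
  map_add' x y := by ext1 <;> simp [mul_add]

theorem scl_inj (h1 : μ ^ l = ε ^ 2) (h2 : (s : k) = ε * t) (hμ : μ ≠ 0) (hε : ε ≠ 0) :
    Function.Injective (scl h1 h2) := by
  refine (injective_iff_map_eq_zero _).2 fun z hz => ?_
  have a : z.re.comp (C μ * X) = 0 := congrArg QuadraticAlgebra.re hz
  have b : C ε * z.im.comp (C μ * X) = 0 := congrArg QuadraticAlgebra.im hz
  have h := mem_nonZeroDivisors_of_ne_zero hμ
  exact QuadraticAlgebra.ext ((comp_C_mul_X_eq_zero_iff h).1 a)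
    ((comp_C_mul_X_eq_zero_iff h).1 ((mul_eq_zero.1 b).resolve_left (C_ne_zero.2 hε)))

theorem comp_eq (hμ : μ ≠ 0) (u : k[X]) :
    u.comp (C μ * X) = u.scaleRoots μ⁻¹ * C (μ ^ u.natDegree) := by
  ext i
  rw [comp_C_mul_X_coeff, coeff_mul_C, coeff_scaleRoots]
  by_cases h : i ≤ u.natDegree
  · obtain ⟨e, he⟩ := Nat.exists_eq_add_of_le h
    rw [he, Nat.add_sub_cancel_left, pow_add, inv_pow]
    field_simp
  · rw [coeff_eq_zero_of_natDegree_lt (not_le.1 h), zero_mul, zero_mul, zero_mul]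

variable [Fact l.Prime] [Fact (2 < l)] [CharZero k]

theorem exists_scale (h1 : μ ^ l = ε ^ 2) (h2 : (s : k) = ε * t) (hμ : μ ≠ 0) (hε : ε ≠ 0) :
    ∃ Φ : Jac l s →* Jac l t, ∀ u v, IsMum l s u v → ∃ v', IsMum l t (u.scaleRoots μ⁻¹) v' ∧
      Φ (cl l (mum l s u v)) = cl l (mum l t (u.scaleRoots μ⁻¹) v') := by
  refine ⟨jmap l _ (scl_inj h1 h2 hμ hε), fun u v hm => ⟨C ε⁻¹ * v.comp (C μ * X), ?_, ?_⟩⟩
  · refine ⟨(monic_scaleRoots_iff _).2 hm.1, ?_, ?_⟩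
    · rw [degree_C_mul (inv_ne_zero hε), comp_eq hμ, degree_mul_C (pow_ne_zero _ hμ),
        degree_scaleRoots, degree_scaleRoots]
      exact hm.2.1
    · have h3 : u.comp (C μ * X) ∣ (v ^ 2 - FF l s).comp (C μ * X) :=
        map_dvd (compRingHom (C μ * X)) hm.2.2
      rw [sub_comp, pow_comp, FF_comp h1 h2, comp_eq hμ u] at h3
      have h4 : C ε⁻¹ * C ε = (1 : k[X]) := by rw [← C_mul, inv_mul_cancel₀ hε, C_1]
      convert (dvd_of_mul_right_dvd h3).mul_left (C ε⁻¹ ^ 2) using 1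
      linear_combination (C ε⁻¹ * C ε + 1) * FF l t * h4
  · have e0 : Associated (u.comp (C μ * X)) (u.scaleRoots μ⁻¹) := by
      rw [comp_eq hμ]
      exact associated_mul_unit_left _ _ (isUnit_C.2 (pow_ne_zero _ hμ).isUnit)
    rw [jmap_cl, ← mum_assoc e0, mum, mum, Ideal.map_span, Set.image_pair]
    congr 1
    have e1 : scl h1 h2 (⟨u, 0⟩ : CR l s) = ⟨u.comp (C μ * X), 0⟩ := by
      ext1 <;> simp [scl]
    have e2 : scl h1 h2 (⟨-v, 1⟩ : CR l s) =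
        (⟨C ε, 0⟩ : CR l t) * ⟨-(C ε⁻¹ * v.comp (C μ * X)), 1⟩ := by
      ext1
      · simp [scl, ← mul_assoc, ← C_mul, hε]
      · simp [scl]
    rw [e1, e2, Ideal.span_insert, Ideal.span_insert,
      Ideal.span_singleton_mul_left_unit (J1bAux.isUnit_C hε)]

theorem pow_of_X {d : ℕ} {v : k[X]} (h : IsMum l s (X ^ d) v) :
    cl l (mum l s (X ^ d) v) ^ l = 1 := by
  have e : (X ^ d : k[X]) = ∏ _i : Fin d, (X - C 0) := by simp
  have hT : jT l s ^ l = 1 := by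
    have := pow_orderOf_eq_one (jT l s)
    rwa [orderOf_jT] at this
  have h3 := h.2.2
  rw [e] at h3 ⊢
  rw [PDAux.cl_mum_prod (fun _ => 0) h3, ← Finset.prod_pow]
  refine Finset.prod_eq_one fun i _ => ?_
  have h4 : v.eval 0 ^ 2 = (s : k) ^ 2 := by
    have h5 : (X - C (0 : k)) ∣ ∏ _i : Fin d, (X - C (0 : k)) :=
      Finset.dvd_prod_of_mem (fun _ : Fin d => X - C (0 : k)) (Finset.mem_univ i)
    have := (dvd_iff_isRoot.1 (h5.trans h3)).eq_zero
    simpa [FF, (Fact.out : l.Prime).ne_zero, sub_eq_zero] using this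
  rcases sq_eq_sq_iff_eq_or_eq_neg.1 h4 with h5 | h5
  · rw [h5]
    exact hT
  · rw [h5, cl_pt_neg (by rw [zero_pow (Fact.out : l.Prime).ne_zero, zero_add]), inv_pow]
    exact inv_eq_one.2 hT

end Scale

theorem root_deg {K E : Type} [Field K] [Field E] (j : K →+* E) {u : K[X]} (hu : u ≠ 0) {ν : E}
    (hν : ν ≠ 0) {l : ℕ} (hl : 0 < l) {w : K} (hw : ν ^ l = j w) {a : E}
    (ha : ((u.map j).scaleRoots ν).IsRoot a) :
    ∃ p : K[X], p ≠ 0 ∧ p.natDegree ≤ u.natDegree * l ∧ (p.map j).IsRoot a := by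
  let := j.toAlgebra
  have hb : aeval (a / ν) u = 0 := by
    have := scaleRoots_eval_mul (u.map j) (a / ν) ν
    rw [mul_div_cancel₀ _ hν, ha.eq_zero] at this
    rw [aeval_def, ← eval_map]
    exact (mul_eq_zero.1 this.symm).resolve_left (pow_ne_zero _ hν)
  have hi : IsIntegral K (a / ν) := IsAlgebraic.isIntegral ⟨u, hu, hb⟩
  have := IntermediateField.adjoin.finiteDimensional hi
  let x : IntermediateField.adjoin K {a / ν} :=
    algebraMap K _ w * IntermediateField.AdjoinSimple.gen K (a / ν) ^ l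
  have hx : algebraMap _ E x = a ^ l := by
    rw [map_mul, map_pow, IntermediateField.AdjoinSimple.algebraMap_gen,
      ← IsScalarTower.algebraMap_apply]
    change j w * _ = _
    rw [← hw, ← mul_pow, mul_div_cancel₀ _ hν]
  have h1 := minpoly.natDegree_le (A := K) x
  rw [IntermediateField.adjoin.finrank hi] at h1
  have h2 := natDegree_le_natDegree (minpoly.degree_le_of_ne_zero K _ hu hb)
  refine ⟨expand K l (minpoly K x),
    (expand_ne_zero hl).2 (minpoly.ne_zero (Algebra.IsIntegral.isIntegral x)), ?_, ?_⟩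
  · rw [natDegree_expand]
    exact Nat.mul_le_mul_right _ (h1.trans h2)
  · rw [IsRoot, eval_map]
    change eval₂ (algebraMap K E) a _ = 0
    rw [← aeval_def, expand_aeval, ← hx, aeval_algebraMap_apply, minpoly.aeval, map_zero]

open PEAux Pointwise in
/-- divisors of bounded degree fall into finitely many classes -/
theorem fin_cls {l : ℕ} [Fact l.Prime] [Fact (2 < l)] {K : Type} [Field K] [NumberField K]
    (j : K →+* ℂ_[l]) {s' : ℂ_[l]ˣ} (B : Base l s') {r : ℝ} (h0 : 0 < r)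
    (hr : r < 1) (H : Subgroup (Jac l s')) (hH : ∀ x, x ∈ H ↔ B.Nb r x) (n : ℕ) :
    {t : Jac l s' ⧸ H | ∃ u v, IsMum l s' u v ∧ u.natDegree ≤ l / 2 ∧
      (∀ a, u.IsRoot a → ∃ p : K[X], p ≠ 0 ∧ p.natDegree ≤ n ∧ (p.map j).IsRoot a) ∧
      QuotientGroup.mk' H (cl l (mum l s' u v)) = t}.Finite := by
  let T : Set (Jac l s' ⧸ H) := {t | ∃ a b : ℂ_[l], b ^ 2 = a ^ l + (s' : ℂ_[l]) ^ 2 ∧
    (∃ p : K[X], p ≠ 0 ∧ p.natDegree ≤ n ∧ (p.map j).IsRoot a) ∧
      QuotientGroup.mk' H (cl l (pt l s' a b)) = t}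
  have hT : T.Finite := by
    by_contra hT
    have hT' : (T \ {1}).Infinite := Set.Infinite.sdiff hT (Set.finite_singleton 1)
    choose a b h₁ h₂ h₃ using fun i => (hT'.natEmbedding _ i).2.1
    obtain ⟨R, hR⟩ := B.loc_inf h0 hr
    obtain ⟨a₀, φ, hφ, ha⟩ := seq_cpt j n R a (fun i => not_lt.1 fun e =>
      (hT'.natEmbedding _ i).2.2 ((h₃ i).symm.trans
        ((QuotientGroup.eq_one_iff _).2 ((hH _).2 (hR _ _ (h₁ i) e))))) h₂
    have t₁ : Tendsto (fun i => b (φ i) ^ 2) atTop (𝓝 (a₀ ^ l + (s' : ℂ_[l]) ^ 2)) := by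
      simpa only [h₁] using (ha.pow l).add_const ((s' : ℂ_[l]) ^ 2)
    obtain ⟨b₀, ψ, hψ, hb⟩ := subseq_of_eval
      (monic_X_pow_sub_C (a₀ ^ l + (s' : ℂ_[l]) ^ 2) two_ne_zero).ne_zero
      (x := fun i => b (φ i)) (by simpa using tendsto_sub_nhds_zero_iff.2 t₁)
    obtain ⟨δ, hδ, hN⟩ := B.loc_const h0 hr
      (tendsto_nhds_unique (hb.pow 2) (t₁.comp hψ.tendsto_atTop))
    obtain ⟨N, hN'⟩ := eventually_atTop.1
      (((tendsto_iff_norm_sub_tendsto_zero.1 (ha.comp hψ.tendsto_atTop)).eventually_lt_const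
        hδ).and ((tendsto_iff_norm_sub_tendsto_zero.1 hb).eventually_lt_const hδ))
    have key : ∀ i, N ≤ i → (hT'.natEmbedding _ (φ (ψ i))).1 =
        QuotientGroup.mk' H (cl l (pt l s' a₀ b₀)) := fun i hi =>
      (h₃ _).symm.trans (QuotientGroup.eq_iff_div_mem.2
        ((hH _).2 (hN _ _ (h₁ _) (hN' i hi).1 (hN' i hi).2)))
    have := (hT'.natEmbedding _).injective
      (Subtype.ext ((key N le_rfl).trans (key (N + 1) (Nat.le_succ N)).symm))
    exact absurd this (hφ (hψ (Nat.lt_succ_self N))).ne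
  refine (finite_pow (hT.insert 1) (l / 2)).subset ?_
  rintro _ ⟨u, v, ⟨hm₁, -, hm₂⟩, hd, hrt, rfl⟩
  obtain ⟨c, hc⟩ := PDAux.exists_prod hm₁
  refine Set.pow_subset_pow_right (Set.mem_insert _ _) hd (Set.mem_pow.2
    ⟨fun i => ⟨QuotientGroup.mk' H (cl l (pt l s' (c i) (v.eval (c i)))),
      Set.mem_insert_of_mem _ ?_⟩, ?_⟩)
  · have hu : u.IsRoot (c i) := by
      rw [hc, IsRoot, eval_prod]
      exact Finset.prod_eq_zero (Finset.mem_univ i) (by simp)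
    refine ⟨_, _, ?_, hrt _ hu, rfl⟩
    simpa [PDAux.eval_FF, sub_eq_zero] using (hu.dvd hm₂).eq_zero
  · rw [List.prod_ofFn, ← map_prod, ← PDAux.cl_mum_prod c (hc ▸ hm₂), ← hc]

open Pointwise in
/-- in a family of twists with new ramification, some divisible subgroup is trivial -/
theorem exists_triv {l : ℕ} [Fact l.Prime] [Fact (2 < l)] {K : Type} [Field K] [NumberField K]
    (j : K →+* ℂ_[l]) {s₀ : Kˣ} {s' : ℂ_[l]ˣ} (h₀ : j s₀ = s') (B : Base l s') {I : Type}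
    (s : I → Kˣ) (hI : ∀ T : Finset (Pr K), ∃ i, ∃ v ∉ T, ¬(l : ℤ) ∣ ord v (s i : K))
    (M : ∀ i, Subgroup (Jac l (s i))) (hM : ∀ i, ∀ x ∈ M i, ∃ y ∈ M i, y ^ l = x) :
    ∃ i, ∀ x ∈ M i, x = 1 := by
  classical
  have hp : l.Prime := Fact.out
  have h2 : 2 < l := Fact.out
  obtain ⟨r0, r1⟩ := norm_ell l
  obtain ⟨H, hH⟩ := B.exists_sub r0.le r1
  have hS := fin_cls j B r0 r1 H hH (l / 2 * l)
  set S := {t : Jac l s' ⧸ H | ∃ u v, IsMum l s' u v ∧ u.natDegree ≤ l / 2 ∧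
      (∀ a, u.IsRoot a → ∃ p : K[X], p ≠ 0 ∧ p.natDegree ≤ l / 2 * l ∧ (p.map j).IsRoot a) ∧
      QuotientGroup.mk' H (cl l (mum l s' u v)) = t}
  have ex : ∀ i, ∃ (ν : ℂ_[l]) (Φ : Jac l (s i) →* Jac l s'), ν ≠ 0 ∧
      ν ^ l = j (((s₀ : K) / s i) ^ 2) ∧
      ∀ u v, IsMum l (s i) u v → ∃ v', IsMum l s' ((u.map j).scaleRoots ν) v' ∧
        Φ (cl l (mum l (s i) u v)) = cl l (mum l s' ((u.map j).scaleRoots ν) v') := by
    intro i
    have e0 : j (s i) / s' ≠ 0 := div_ne_zero ((map_ne_zero j).2 (s i).ne_zero) s'.ne_zero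
    obtain ⟨μ, hμ⟩ := IsAlgClosed.exists_pow_nat_eq ((j (s i) / s') ^ 2) hp.pos
    have μ0 : μ ≠ 0 := by
      rintro rfl
      rw [zero_pow hp.ne_zero] at hμ
      exact pow_ne_zero 2 e0 hμ.symm
    obtain ⟨Φ, hΦ⟩ := exists_scale (s := Units.map j.toMonoidHom (s i)) (t := s') hμ
      (div_mul_cancel₀ _ s'.ne_zero).symm μ0 e0
    refine ⟨μ⁻¹, Φ.comp (jcf l j rfl), inv_ne_zero μ0, ?_, fun u v hm => ?_⟩
    · rw [inv_pow, hμ, map_pow, map_div₀, h₀, ← inv_pow, inv_div]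
    · rw [MonoidHom.comp_apply, jcf_mum]
      exact hΦ _ _ (hm.map j rfl)
  choose ν Φ ν0 hν hΦ using ex
  have mem : ∀ i x, QuotientGroup.mk' H (Φ i x) ∈ S := by
    intro i x
    obtain ⟨u, v, hm, hd, rfl⟩ := exists_red x
    obtain ⟨v', h3, h4⟩ := hΦ i u v hm
    refine ⟨_, v', h3, by rwa [natDegree_scaleRoots, natDegree_map], fun a ha => ?_, by rw [h4]⟩
    obtain ⟨p, p0, p1, p2⟩ := root_deg j hm.1.ne_zero (ν0 i) hp.pos (hν i) ha
    exact ⟨p, p0, p1.trans (Nat.mul_le_mul_right _ hd), p2⟩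
  by_contra hn
  have ex2 : ∀ i, ∃ x ∈ M i, x ^ l ≠ 1 := fun i => by
    by_contra h
    refine hn ⟨i, fun x hx => ?_⟩
    obtain ⟨y, hy, rfl⟩ := hM i x hx
    exact not_not.1 fun e => h ⟨y, hy, e⟩
  choose x hx hxl using ex2
  let τ : I → Jac l s' ⧸ H := fun i => QuotientGroup.mk' H (Φ i (x i))
  have hτ : (Set.range τ).Finite := hS.subset (by rintro _ ⟨i, rfl⟩; exact mem i _)
  have hT : (⋃ t ∈ Set.range τ, ⋃ h : t ∈ Set.range τ,
      {v : Pr K | ord v (s h.choose : K) ≠ 0}).Finite :=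
    hτ.biUnion fun t _ => Set.finite_iUnion fun h => ord_finite _
  obtain ⟨i, v, hv, hnd⟩ := hI hT.toFinset
  have hi : τ i ∈ Set.range τ := ⟨i, rfl⟩
  have hk : τ hi.choose = τ i := hi.choose_spec
  have o0 : ord v (s hi.choose : K) = 0 := by
    by_contra h
    exact hv (hT.mem_toFinset.2 (Set.mem_iUnion₂.2 ⟨_, hi, Set.mem_iUnion.2 ⟨hi, h⟩⟩))
  generalize hi.choose = k at hk o0
  let Ψ : Jac l (s i) × Jac l (s k) →* Jac l s' :=
    (Φ i).comp (MonoidHom.fst _ _) / (Φ k).comp (MonoidHom.snd _ _)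
  have hΨ : ∀ z, Ψ z = Φ i z.1 / Φ k z.2 := fun _ => rfl
  have fin : Finite ((QuotientGroup.mk' H).comp Ψ).range := by
    refine (hS.div hS).subset ?_
    rintro _ ⟨z, rfl⟩
    rw [MonoidHom.comp_apply, hΨ, _root_.map_div]
    exact Set.div_mem_div (mem _ _) (mem _ _)
  have fi := Subgroup.finiteIndex_ker ((QuotientGroup.mk' H).comp Ψ)
  rw [← MonoidHom.comap_ker, QuotientGroup.ker_mk'] at fi
  have hdiv := divis_inf l ((M i).prod (M k)) (H.comap Ψ) fun z hz => by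
    obtain ⟨a, ha, ea⟩ := hM i _ hz.1
    obtain ⟨b, hb, eb⟩ := hM k _ hz.2
    exact ⟨(a, b), ⟨ha, hb⟩, Prod.ext ea eb⟩
  have triv := B.div_trivial r1 (Ψ '' ((M i).prod (M k) ⊓ H.comap Ψ : Subgroup _))
    (by rintro _ ⟨y, hy, rfl⟩; exact (hH _).1 hy.2)
    (by
      rintro _ ⟨y, hy, rfl⟩
      obtain ⟨z, hz, rfl⟩ := hdiv y hy
      exact ⟨_, ⟨z, hz, rfl⟩, (map_pow _ _ _).symm⟩)
    _ ⟨(x i, x k), ⟨⟨hx i, hx k⟩, QuotientGroup.eq_iff_div_mem.1 hk.symm⟩, rfl⟩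
  rw [hΨ, div_eq_one] at triv
  obtain ⟨u, w, hm, hd, e⟩ := exists_red (x i)
  obtain ⟨u', w', hm', hd', e'⟩ := exists_red (x k)
  obtain ⟨v₁, m₁, e₁⟩ := hΦ i u w hm
  obtain ⟨v₂, m₂, e₂⟩ := hΦ k u' w' hm'
  have eq := (red_unique m₁ m₂ (by rwa [natDegree_scaleRoots, natDegree_map])
    (by rwa [natDegree_scaleRoots, natDegree_map]) (by rw [← e₁, ← e₂, e, e']; exact triv)).1
  have dd : u'.natDegree = u.natDegree := by
    simpa [natDegree_scaleRoots] using (congrArg natDegree eq).symm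
  have ex3 : ∃ m < u.natDegree, u.coeff m ≠ 0 := by
    by_contra h
    refine hxl i ?_
    have eu : u = X ^ u.natDegree := by
      rw [hm.1.as_sum, Finset.sum_eq_zero, add_zero, natDegree_X_pow]
      intro m hm
      rw [not_not.1 fun e => h ⟨m, Finset.mem_range.1 hm, e⟩, C_0, zero_mul]
    rw [← e, eu]
    exact pow_of_X (eu ▸ hm)
  obtain ⟨m, hm1, hm2⟩ := ex3
  have c1 := congrArg (fun p => coeff p m ^ l) eq
  simp only [coeff_scaleRoots, coeff_map, natDegree_map, dd, mul_pow] at c1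
  rw [← pow_mul, ← pow_mul, mul_comm _ l, pow_mul, pow_mul, hν, hν, ← map_pow, ← map_pow,
    ← map_pow, ← map_pow, ← map_mul, ← map_mul] at c1
  have c2 := j.injective c1
  have a1 : ∀ i, ((s₀ : K) / s i) ≠ 0 := fun i => div_ne_zero s₀.ne_zero (s i).ne_zero
  have hm3 : u'.coeff m ≠ 0 := fun h => by
    rw [h, zero_pow hp.ne_zero, zero_mul] at c2
    exact mul_ne_zero (pow_ne_zero _ hm2) (pow_ne_zero _ (pow_ne_zero _ (a1 i))) c2
  have c3 := congrArg (ord v) c2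
  rw [ord_mul v (pow_ne_zero _ hm2) (pow_ne_zero _ (pow_ne_zero _ (a1 i))),
    ord_mul v (pow_ne_zero _ hm3) (pow_ne_zero _ (pow_ne_zero _ (a1 k)))] at c3
  simp only [ord_pow, R0Aux.ord_div v s₀.ne_zero (Units.ne_zero _), o0] at c3
  have c4 : (l : ℤ) ∣ ((u.natDegree - m : ℕ) : ℤ) * (((2 : ℕ) : ℤ) * ord v (s i : K)) :=
    ⟨ord v (u.coeff m) - ord v (u'.coeff m), by linear_combination -c3⟩
  have hp' : Prime (l : ℤ) := Nat.prime_iff_prime_int.1 hp
  rcases hp'.dvd_or_dvd c4 with h | h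
  · exact absurd (Nat.le_of_dvd (by omega) (Int.natCast_dvd_natCast.1 h)) (by omega)
  · rcases hp'.dvd_or_dvd h with h | h
    · exact absurd (Nat.le_of_dvd two_pos (Int.natCast_dvd_natCast.1 h)) (by omega)
    · exact hnd h

end Pool.Agent.MP_14ad9d_nt.Full.R
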