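import Pool.Agent.Mg.F14ad9d.Gbc0ace
import Pool.Agent.MP_14ad9d_nt.R.Mum
import Pool.Agent.MP_14ad9d_nt.R.Sc
import Pool.Agent.MP_14ad9d_nt.R.Sel

set_option autoImplicit false

open NumberField Polynomial

namespace Pool.Agent.MP_14ad9d_nt.Full.R

section

variable {F : Type} (K : Type) [Field F] [Field K] [Algebra F K]

/-- the parameter of the curve in the top field -/
def sK (sF : Fˣ) : Kˣ := Units.map (algebraMap F K).toMonoidHom sF

theorem sK_fix (sF : Fˣ) (g : K ≃ₐ[F] K) : (g : K →+* K) (sK K sF) = sK K sF := g.commutes _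

end

variable {l : ℕ} [hp : Fact l.Prime] [Fact (2 < l)] {F K : Type} [Field F] [NumberField F]
  [Field K] [NumberField K] [Algebra F K]

variable (l K) in
/-- the kernel of the norm is divisible and there is an invariant point of infinite order -/
def Good (sF : Fˣ) : Prop :=
  (∀ x : Jac l (sK K sF), ∏ g : K ≃ₐ[F] K, jcf l (g : K →+* K) (sK_fix K sF g) x = 1 →
    ∃ y : Jac l (sK K sF), ∏ g : K ≃ₐ[F] K, jcf l (g : K →+* K) (sK_fix K sF g) y = 1 ∧
      y ^ l = x) ∧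
  ∃ P : Jac l (sK K sF), ¬IsOfFinOrder P ∧
    ∀ g : K ≃ₐ[F] K, jcf l (g : K →+* K) (sK_fix K sF g) P = P

theorem par [IsCyclotomicExtension {l} ℚ F] [IsGalois F K] [IsGalois ℚ K] (S : Setup l F K)
    (j : K →+* ℂ_[l]) (T₀ : Finset (Pr K)) : ∃ sF : Fˣ, Good l K sF ∧
      Nonempty (Base l (Units.map j.toMonoidHom (sK K sF))) ∧
      ∃ v ∉ T₀, ¬(l : ℤ) ∣ ord v (sK K sF : K) := by
  classical
  have hl : 2 < l := Fact.out
  obtain ⟨a, b, A, B, c, hA, hB, hc, ca, cb, hd, hab, sel, near, ind, v, hv, hvc⟩ :=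
    selMain hl S (T₀ ∪ (ord_finite (2 : K)).toFinset)
  obtain ⟨r0, r1⟩ := norm_ell l
  let jF : F →+* ℂ_[l] := j.comp (algebraMap F K)
  have na : ‖jF a‖ = 1 := norm_coprime jF ca
  have nb : ‖jF b‖ = 1 := norm_coprime jF cb
  have a0 : (a : F) ≠ 0 := fun h => by simp [h] at na
  have b0 : (b : F) ≠ 0 := fun h => by simp [h] at nb
  have ab : (b : F) - a ≠ 0 := fun h => hab (RingOfIntegers.ext (sub_eq_zero.1 h)).symm
  obtain ⟨n, hn⟩ : ∃ n, l = 2 * n + 1 := hp.out.odd_of_ne_two hl.ne'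
  have hn' : (l - 1) / 2 = n := by omega
  rw [hn'] at hc
  set κ : F := ((a : F) * b) ^ n with hκ
  have κ0 : κ ≠ 0 := pow_ne_zero _ (mul_ne_zero a0 b0)
  let sF : Fˣ := Units.mk0 (κ * (b - a) / 2) (div_ne_zero (mul_ne_zero κ0 ab) two_ne_zero)
  let s : Kˣ := sK K sF
  let s' : ℂ_[l]ˣ := Units.map j.toMonoidHom s
  have hsF : algebraMap F K sF = s := rfl
  have hs' : j s = s' := rfl
  have hs : ∀ g : K ≃ₐ[F] K, (g : K →+* K) s = s := fun g => g.commutes _
  have hsc : (s : K) = c / 2 := by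
    rw [← hsF, hc, hA, hB]
    simp [sF, hκ, map_ofNat]
  have h2s : 2 * (s : K) = c := by rw [hsc]; ring
  set y₁ : F := κ * (a + b) / 2 with hy₁
  set x₁ : F := (a : F) * b with hx₁
  have curve : y₁ ^ 2 = x₁ ^ l + (sF : F) ^ 2 := by
    change _ = _ + (κ * (b - a) / 2) ^ 2
    rw [hn, pow_succ x₁, mul_comm 2 n, pow_mul, ← hκ, hy₁, hx₁]
    ring
  set u₀ : F[X] := ∏ i ∈ Finset.range (l / 2), (X - C (S.ζ ^ i * x₁)) with hu₀
  have hm : u₀.Monic := monic_prod_of_monic _ _ fun i _ => monic_X_sub_C _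
  have hdeg : u₀.natDegree = l / 2 := by
    rw [hu₀, natDegree_prod_of_monic _ _ fun i _ => monic_X_sub_C _]
    simp only [natDegree_X_sub_C, Finset.sum_const, Finset.card_range, smul_eq_mul, mul_one]
  have hdvd : u₀ ∣ C y₁ ^ 2 - FF l sF := by
    rw [← C_pow, curve, FF, C_add, ← dvd_neg]
    convert dvd_cyc hp.out.pos S.hζ x₁ using 1
    ring
  have iκ : IsIntegral ℤ κ := (a.2.mul b.2).pow n
  have ls : LInt l (sF : F) := lint_half hp.out hl (iκ.mul (b.2.sub a.2))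
  have n2 : ‖(2 : ℂ_[l])‖ = 1 := by
    have := norm_coprime jF (a := 2) (by
      have h := Nat.isCoprime_iff_coprime.2 ((Nat.coprime_primes Nat.prime_two hp.out).2 hl.ne)
      simpa using h.map (Int.castRingHom (𝓞 F)))
    simpa [map_ofNat] using this
  have ny : ‖jF y₁‖ = 1 := by
    obtain ⟨t, ht⟩ := hd
    have e : (a : F) + b = 2 * a + l * t := by
      have := congrArg (fun z : 𝓞 F => (z : F)) ht
      simp only [map_sub, map_mul, map_natCast] at this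
      linear_combination this
    have nt : ‖jF t‖ ≤ 1 := ((lint_int t.2).map jF).norm_le
    have h1 : ‖jF (2 * a)‖ = 1 := by rw [map_mul, map_ofNat, norm_mul, n2, na, mul_one]
    have h2 : ‖jF (l * t)‖ < 1 := by
      rw [map_mul, map_natCast, norm_mul]
      exact lt_of_le_of_lt (mul_le_of_le_one_right r0.le nt) r1
    have h3 : ‖jF (a + b)‖ = 1 := by
      rw [e, map_add, IsUltrametricDist.norm_add_eq_max_of_norm_ne_norm (by rw [h1]; exact h2.ne'),
        h1, max_eq_left h2.le]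
    rw [hy₁, map_div₀, map_mul, map_ofNat, norm_div, norm_mul, h3, n2, hκ, map_pow, hx₁, map_mul,
      norm_pow, norm_mul, na, nb]
    simp
  let Bs : Base l s' :=
    { u₀ := (u₀.map (algebraMap F K)).map j
      y₁ := j (algebraMap F K y₁)
      monic := (hm.map _).map _
      deg := by rw [natDegree_map, natDegree_map, hdeg]
      dvd := by
        have := Polynomial.map_dvd j (Polynomial.map_dvd (algebraMap F K) hdvd)
        simpa only [Polynomial.map_sub, Polynomial.map_pow, map_C, FF_map _ hsF, FF_map _ hs']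
          using this
      hy := ny
      hs := (ls.map jF).norm_le
      hl := r1 }
  have wild : ∀ v : Pr K, ¬Tm l v → ord v (1 - S.z) = 1 := fun v hv => by
    obtain ⟨g, rfl⟩ := S.trans v hv
    have := ord_act (g : K ≃+* K) S.v₀ (1 - S.z)
    rw [map_sub, map_one] at this
    erw [S.map_z g] at this
    rw [this]
    exact S.ord_lam
  have hG : ¬l ∣ Fintype.card (K ≃ₐ[F] K) := fun h =>
    S.card_ne ((ZMod.natCast_eq_zero_iff _ _).2 h)
  have hdiv := divis S.hz hs S.map_z hG fun x d h hN =>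
    sel d h.ne_zero hN (fun v hv hc => h.ord_dvd hv (h2s ▸ hc)) (fun v hv => h2s ▸ h.tame_eq hv)
      fun v hv => h.nearAt (wild v hv) (by
        obtain ⟨γ, h0, h1⟩ := near
        exact ⟨γ, h0, hsc ▸ h1 v hv⟩)
  have curveK : algebraMap F K y₁ ^ 2 = algebraMap F K x₁ ^ l + (s : K) ^ 2 := by
    rw [← hsF, ← map_pow, ← map_pow, ← map_pow, ← map_add, curve]
  have x0 : algebraMap F K x₁ ≠ 0 := (_root_.map_ne_zero _).2 (mul_ne_zero a0 b0)
  have hdel := del_pt S.hz curveK x0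
  have e : (algebraMap F K y₁ - s) / (algebraMap F K y₁ + s) = A / B := by
    rw [← hsF, ← map_sub, ← map_add, ← map_div₀, hA, hB, ← map_div₀]
    congr 1
    change (y₁ - κ * (b - a) / 2) / (y₁ + κ * (b - a) / 2) = _
    have e1 : y₁ - κ * (b - a) / 2 = κ * a := by rw [hy₁]; ring
    have e2 : y₁ + κ * (b - a) / 2 = κ * b := by rw [hy₁]; ring
    rw [e1, e2, mul_div_mul_left _ _ κ0]
  rw [e] at hdel
  have hP := nontors S.hz hdel (h2s ▸ ind)
  refine ⟨sF, ⟨hdiv, _, hP, fun g => ?_⟩, ⟨Bs⟩, v, fun h => hv (Finset.mem_union_left _ h),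
    fun h => hvc ?_⟩
  · rw [jcf_cl, map_cf_pt]
    congr 2 <;> exact g.commutes _
  · have o2 : ord v (2 : K) = 0 := not_not.1 fun h' =>
      hv (Finset.mem_union_right _ ((Set.Finite.mem_toFinset _).2 h'))
    rw [← h2s, ord_mul v two_ne_zero s.ne_zero, o2, zero_add]
    exact h

/-- a curve whose Jacobian has infinitely many points and no new points -/
theorem exists_stable [IsCyclotomicExtension {l} ℚ F] [IsGalois F K] [IsGalois ℚ K]
    (S : Setup l F K) : ∃ sF : Fˣ, (∃ P : Jac l (sK K sF), ¬IsOfFinOrder P) ∧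
      ∀ (g : K ≃ₐ[F] K) (x : Jac l (sK K sF)), jcf l (g : K →+* K) (sK_fix K sF g) x = x := by
  obtain ⟨j, -⟩ := exists_emb S
  obtain ⟨s₀, -, ⟨B⟩, -⟩ := par S j ∅
  have ex : ∀ sF : Fˣ, ∃ M : Subgroup (Jac l (sK K sF)),
      ∀ y, y ∈ M ↔ ∏ g : K ≃ₐ[F] K, jcf l (g : K →+* K) (sK_fix K sF g) y = 1 := fun sF =>
    ⟨(∏ g : K ≃ₐ[F] K, jcf l (g : K →+* K) (sK_fix K sF g)).ker, fun y => by
      rw [MonoidHom.mem_ker, MonoidHom.finsetProd_apply]⟩
  choose M hM using ex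
  have h₀ : j (sK K s₀ : Kˣ) = (Units.map j.toMonoidHom (sK K s₀) : ℂ_[l]ˣ) := rfl
  have h₁ : ∀ T : Finset (Pr K), ∃ i : {sF : Fˣ // Good l K sF}, ∃ v ∉ T,
      ¬(l : ℤ) ∣ ord v (sK K i.1 : K) := fun T => by
    obtain ⟨sF, h1, -, h2⟩ := par S j T
    exact ⟨⟨sF, h1⟩, h2⟩
  have h₂ : ∀ i : {sF : Fˣ // Good l K sF}, ∀ x ∈ M i.1, ∃ y ∈ M i.1, y ^ l = x := fun i x hx => by
    obtain ⟨y, hy, e⟩ := i.2.1 x ((hM _ x).1 hx)
    exact ⟨y, (hM _ y).2 hy, e⟩
  obtain ⟨i, hi⟩ := exists_triv j h₀ B (fun i : {sF : Fˣ // Good l K sF} => sK K i.1) h₁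
    (fun i => M i.1) h₂
  obtain ⟨P, hP, -⟩ := i.2.2
  refine ⟨i.1, ⟨P, hP⟩, fun g x => div_eq_one.1 (hi _ ?_)⟩
  rw [hM]
  simp only [_root_.map_div, Finset.prod_div_distrib, div_eq_one]
  refine Fintype.prod_equiv (Equiv.mulRight g) _ _ fun h => ?_
  exact jcf_jcf _ _ _ _ _ (sK_fix K i.1 (h * g)) (fun _ => rfl) x

theorem top (K₀ : Type) [Field K₀] [NumberField K₀] : ConcP K₀ := by
  obtain ⟨l, hp, hl, F, K, _, _, _, _, _, _, _, _, S, f, hli⟩ := exists_setup K₀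
  have : Fact (2 < l) := ⟨hl⟩
  obtain ⟨sF, ⟨P, hP⟩, fix⟩ := exists_stable S
  have hsF : algebraMap F K sF = sK K sF := rfl
  have lift : ∀ u v : K[X], IsMum l (sK K sF) u v → u.natDegree ≤ l / 2 →
      (∃ u' : F[X], u'.map (algebraMap F K) = u) ∧ ∃ v' : F[X], v'.map (algebraMap F K) = v := by
    intro u v hm hd
    have hfix := fun g : K ≃ₐ[F] K => fixed_red _ (sK_fix K sF g) hm hd (fix g _)
    exact ⟨lift_fix fun g => (hfix g).1, lift_fix fun g => (hfix g).2⟩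
  have key : ∀ n : ℕ, ∃ p : F[X] × F[X], (IsMum l sF p.1 p.2 ∧ p.1.natDegree ≤ l / 2) ∧
      cl l (mum l (sK K sF) (p.1.map (algebraMap F K)) (p.2.map (algebraMap F K))) = P ^ n := by
    intro n
    obtain ⟨u, v, hm, hd, e⟩ := exists_red (P ^ n)
    obtain ⟨⟨u', rfl⟩, v', rfl⟩ := lift u v hm hd
    exact ⟨(u', v'), ⟨IsMum.of_map _ hsF hm, by rwa [natDegree_map] at hd⟩, e⟩
  choose p h1 e using key
  have inf : {p : F[X] × F[X] | IsMum l sF p.1 p.2 ∧ p.1.natDegree ≤ l / 2}.Infinite := by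
    refine Set.infinite_of_injective_forall_mem (f := p) (fun m n h => ?_) h1
    have h2 := e m
    rw [h, e n] at h2
    exact (injective_pow_iff_not_isOfFinOrder.2 hP h2).symm
  obtain ⟨d, hd, hA⟩ : ∃ d ≤ l / 2, {p : F[X] × F[X] | p.1.Monic ∧ p.1.natDegree = d ∧
      p.2.degree < p.1.degree ∧ p.1 ∣ p.2 ^ 2 - FF l sF}.Infinite := by
    by_contra h
    refine inf (((Set.finite_Iic (l / 2)).biUnion fun d hd =>
      Set.not_infinite.1 fun h' => h ⟨d, hd, h'⟩).subset ?_)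
    rintro p ⟨⟨h1, h2, h3⟩, h4⟩
    exact Set.mem_iUnion₂.2 ⟨_, h4, h1, rfl, h2, h3⟩
  refine schM K₀ F K f hli d (FF l sF) hA fun u v h1 h2 h3 h4 => ?_
  rw [FF_map _ hsF] at h4
  exact lift u v ⟨h1, h3, h4⟩ (h2 ▸ hd)

end Pool.Agent.MP_14ad9d_nt.Full.R
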